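import Mathlib

/-!
# Leading coefficients of the Airy moment polynomials

`z, a, b` are algebraically independent over `ℚ`, `a` is invertible with inverse `a'`, and `D` is
a derivation with `D z = 1`, `D a = b`, `D b = z a`.  We write
`a⁻¹ D^n (a⁻¹) = ∑ c_{jk} z^j b^k a^{-(k+2)}`, apply the reduction `R`, and compute the
coefficient `b_{2m,m}` of `[m,0,2]`.
-/

set_option autoImplicit false

open Polynomial

namespace Pool.Agent.Results.MP_c1403d_pr.LeadingCoefficients

/-- The reduction `R`: `red k j l` is `R[j,k,l]`, an element of the free `ℚ`-module on the symbols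
`[i,0,l']`, the symbol `[i,0,l']` being represented by `Finsupp.single (i, l') 1`.
It is defined by `R[j,0,l] = [j,0,l]`, `R[j,1,l] = j/(l-1) R[j-1,0,l-1]` and
`R[j,k,l] = j/(l-1) R[j-1,k-1,l-1] + (k-1)/(l-1) R[j+1,k-2,l-2]` for `k ≥ 2`
(for `j = 0` the factor `j` makes the terms with `j - 1` vanish). -/
noncomputable def red : ℕ → ℕ → ℕ → (ℕ × ℕ →₀ ℚ)
  | 0, j, l => Finsupp.single (j, l) 1
  | 1, j, l => ((j : ℚ) / ((l : ℚ) - 1)) • red 0 (j - 1) (l - 1)
  | k + 2, j, l => ((j : ℚ) / ((l : ℚ) - 1)) • red (k + 1) (j - 1) (l - 1)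
      + (((k : ℚ) + 1) / ((l : ℚ) - 1)) • red k (j + 1) (l - 2)

/-! ### The one variable polynomials -/

/-- leading parts -/
noncomputable def Q : ℕ → ℚ[X]
  | 0 => 1
  | n + 1 => (1 - X ^ 2) * derivative (Q n) - X * Q n

/-- half the integral over `[-1,1]` -/
noncomputable def lam : ℚ[X] →ₗ[ℚ] ℚ :=
  Polynomial.lsum (fun k => (if Even k then (1 / ((k : ℚ) + 1)) else 0) • LinearMap.id)

lemma lam_monomial (k : ℕ) (q : ℚ) :
    lam (monomial k q) = (if Even k then (1 / ((k : ℚ) + 1)) else 0) * q := by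
  unfold lam
  rw [Polynomial.lsum_apply, Polynomial.sum_monomial_index]
  · rw [LinearMap.smul_apply, LinearMap.id_apply, smul_eq_mul]
  · simp

lemma lam_derivative (p : ℚ[X]) : lam (derivative p) = (p.eval 1 - p.eval (-1)) / 2 := by
  induction p using Polynomial.induction_on' with
  | add p q hp hq => simp only [map_add, hp, hq, eval_add]; ring
  | monomial k q =>
    rw [derivative_monomial, lam_monomial, eval_monomial, eval_monomial]
    rcases Nat.eq_zero_or_pos k with rfl | hk
    · simp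
    · obtain ⟨k, rfl⟩ := Nat.exists_eq_succ_of_ne_zero hk.ne'
      simp only [Nat.succ_eq_add_one, Nat.add_sub_cancel]
      rcases Nat.even_or_odd k with h | h
      · rw [if_pos h, (h.add_one).neg_one_pow]
        have : (k : ℚ) + 1 ≠ 0 := by positivity
        push_cast
        field_simp
        ring
      · rw [if_neg (Nat.not_even_iff_odd.2 h), (h.add_one).neg_one_pow]
        ring

/-! ### Power series with polynomial coefficients -/


lemma leib {S : Type*} [CommRing S] (F G : PowerSeries S) :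
    PowerSeries.derivative S (F * G) =
      F * PowerSeries.derivative S G + G * PowerSeries.derivative S F := by
  rw [Derivation.leibniz]
  rfl

/-- coefficientwise functional -/
noncomputable def Lam (F : PowerSeries ℚ[X]) : PowerSeries ℚ :=
  PowerSeries.mk fun n => lam (PowerSeries.coeff n F)

/-- coefficientwise derivative in the polynomial variable -/
noncomputable def dy (F : PowerSeries ℚ[X]) : PowerSeries ℚ[X] :=
  PowerSeries.mk fun n => derivative (PowerSeries.coeff n F)

/-- constants -/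
noncomputable def iota : PowerSeries ℚ →+* PowerSeries ℚ[X] := PowerSeries.map Polynomial.C

lemma coeff_Lam (n : ℕ) (F : PowerSeries ℚ[X]) :
    PowerSeries.coeff n (Lam F) = lam (PowerSeries.coeff n F) := by
  simp [Lam]

lemma coeff_dy (n : ℕ) (F : PowerSeries ℚ[X]) :
    PowerSeries.coeff n (dy F) = derivative (PowerSeries.coeff n F) := by
  simp [dy]

lemma dy_mul (F G : PowerSeries ℚ[X]) : dy (F * G) = dy F * G + F * dy G := by
  ext1 n
  rw [coeff_dy, map_add, PowerSeries.coeff_mul, PowerSeries.coeff_mul, PowerSeries.coeff_mul,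
    derivative_sum, ← Finset.sum_add_distrib]
  refine Finset.sum_congr rfl fun x _ => ?_
  rw [derivative_mul, coeff_dy, coeff_dy]

lemma dy_iota (f : PowerSeries ℚ) : dy (iota f) = 0 := by
  ext1 n
  rw [coeff_dy, iota, PowerSeries.coeff_map, derivative_C]
  simp

lemma Lam_iota_mul (f : PowerSeries ℚ) (G : PowerSeries ℚ[X]) :
    Lam (iota f * G) = f * Lam G := by
  ext1 n
  rw [coeff_Lam, PowerSeries.coeff_mul, PowerSeries.coeff_mul, map_sum]
  refine Finset.sum_congr rfl fun x _ => ?_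
  rw [coeff_Lam, iota, PowerSeries.coeff_map, ← smul_eq_C_mul, map_smul, smul_eq_mul]

lemma Lam_derivative (G : PowerSeries ℚ[X]) :
    Lam (PowerSeries.derivative ℚ[X] G) = PowerSeries.derivative ℚ (Lam G) := by
  ext1 n
  rw [coeff_Lam, PowerSeries.coeff_derivative, PowerSeries.coeff_derivative, coeff_Lam]
  have : (PowerSeries.coeff (n + 1)) G * ((n : ℚ[X]) + 1) =
      ((n : ℚ) + 1) • (PowerSeries.coeff (n + 1)) G := by
    rw [smul_eq_C_mul, mul_comm]
    simp
  rw [this, map_smul, smul_eq_mul, mul_comm]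

lemma Lam_dy (G : PowerSeries ℚ[X]) :
    Lam (dy G) = PowerSeries.C (1 / 2 : ℚ) * (PowerSeries.map (evalRingHom (1 : ℚ)) G -
      PowerSeries.map (evalRingHom (-1 : ℚ)) G) := by
  ext1 n
  rw [coeff_Lam, coeff_dy, lam_derivative, PowerSeries.coeff_C_mul, map_sub,
    PowerSeries.coeff_map, PowerSeries.coeff_map]
  simp only [coe_evalRingHom]
  ring

/-! ### Hyperbolic functions -/

/-- `e^x` -/
noncomputable def E : PowerSeries ℚ := PowerSeries.exp ℚ

/-- `e^{-x}` -/
noncomputable def E' : PowerSeries ℚ := PowerSeries.evalNegHom (PowerSeries.exp ℚ)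

lemma E_mul_E' : E * E' = 1 := PowerSeries.exp_mul_exp_neg_eq_one

lemma coeff_E (n : ℕ) : PowerSeries.coeff n E = 1 / (n.factorial : ℚ) := by
  simp [E, PowerSeries.coeff_exp]

lemma coeff_E' (n : ℕ) : PowerSeries.coeff n E' = (-1) ^ n / (n.factorial : ℚ) := by
  rw [E', PowerSeries.evalNegHom, PowerSeries.coeff_rescale, PowerSeries.coeff_exp]
  simp [div_eq_mul_inv]

lemma dE : PowerSeries.derivative ℚ E = E := PowerSeries.derivative_exp ℚ

lemma dE' : PowerSeries.derivative ℚ E' = -E' := by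
  ext1 n
  rw [PowerSeries.coeff_derivative, coeff_E', map_neg, coeff_E', Nat.factorial_succ, pow_succ]
  have h1 : (n.factorial : ℚ) ≠ 0 := by positivity
  have h2 : (n : ℚ) + 1 ≠ 0 := by positivity
  push_cast
  field_simp

/-- `cosh x` -/
noncomputable def Ch : PowerSeries ℚ := PowerSeries.C (1 / 2 : ℚ) * (E + E')

/-- `sinh x` -/
noncomputable def Sh : PowerSeries ℚ := PowerSeries.C (1 / 2 : ℚ) * (E - E')

lemma dC (q : ℚ) : PowerSeries.derivative ℚ (PowerSeries.C q) = 0 := PowerSeries.derivative_C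

lemma dCh : PowerSeries.derivative ℚ Ch = Sh := by
  rw [Ch, leib, map_add, dE, dE', dC, Sh, mul_zero, add_zero, sub_eq_add_neg]

lemma dSh : PowerSeries.derivative ℚ Sh = Ch := by
  rw [Ch, Sh, leib, map_sub, dE, dE', dC, mul_zero, add_zero, sub_neg_eq_add]

lemma C_two : (2 : PowerSeries ℚ) = PowerSeries.C (2 : ℚ) := (map_ofNat PowerSeries.C 2).symm

lemma C_four : (4 : PowerSeries ℚ) = PowerSeries.C (4 : ℚ) := (map_ofNat PowerSeries.C 4).symm

lemma C_half_sq : (PowerSeries.C (1 / 2 : ℚ)) * PowerSeries.C (1 / 2 : ℚ) * 4 = 1 := by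
  rw [← map_mul, C_four, ← map_mul]
  norm_num

lemma Ch_sq : Ch * Ch - Sh * Sh = 1 := by
  have h : Ch * Ch - Sh * Sh =
      (PowerSeries.C (1 / 2 : ℚ) * PowerSeries.C (1 / 2 : ℚ) * 4) * (E * E') := by
    rw [Ch, Sh]; ring
  rw [h, C_half_sq, E_mul_E', one_mul]

lemma two_C_half : PowerSeries.C (1 / 2 : ℚ) * 2 = 1 := by
  rw [C_two, ← map_mul]
  norm_num

lemma Ch_add_Sh : Ch + Sh = E := by
  have : Ch + Sh = (PowerSeries.C (1 / 2 : ℚ) * 2) * E := by rw [Ch, Sh]; ring
  rw [this, two_C_half, one_mul]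

lemma Ch_sub_Sh : Ch - Sh = E' := by
  have : Ch - Sh = (PowerSeries.C (1 / 2 : ℚ) * 2) * E' := by rw [Ch, Sh]; ring
  rw [this, two_C_half, one_mul]

lemma Sh_ne : Sh ≠ 0 := by
  intro h
  have h1 := congrArg (PowerSeries.coeff 1) h
  rw [Sh, PowerSeries.coeff_C_mul, map_sub, coeff_E, coeff_E'] at h1
  norm_num at h1

lemma Sh_const : PowerSeries.constantCoeff Sh = 0 := by
  rw [← PowerSeries.coeff_zero_eq_constantCoeff_apply, Sh, PowerSeries.coeff_C_mul, map_sub,
    coeff_E, coeff_E']
  norm_num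

/-! ### The generating function -/

/-- `y` -/
noncomputable def Y : PowerSeries ℚ[X] := PowerSeries.C (Polynomial.X : ℚ[X])

/-- `cosh x + y sinh x` -/
noncomputable def H : PowerSeries ℚ[X] := iota Ch + Y * iota Sh

/-- `∑ Q_n x^n / n!` -/
noncomputable def G : PowerSeries ℚ[X] :=
  PowerSeries.mk fun n => Polynomial.C (1 / (n.factorial : ℚ)) * Q n

lemma dx_iota (f : PowerSeries ℚ) :
    PowerSeries.derivative ℚ[X] (iota f) = iota (PowerSeries.derivative ℚ f) := by
  ext1 n
  rw [PowerSeries.coeff_derivative, iota, PowerSeries.coeff_map, PowerSeries.coeff_map,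
    PowerSeries.coeff_derivative]
  simp

lemma dx_H : PowerSeries.derivative ℚ[X] H = iota Sh + Y * iota Ch := by
  rw [H, map_add, dx_iota, dCh, leib, dx_iota, dSh, Y, PowerSeries.derivative_C, mul_zero,
    add_zero]

lemma dy_Y : dy Y = 1 := by
  ext1 n
  rw [coeff_dy, Y, PowerSeries.coeff_C, PowerSeries.coeff_one]
  split_ifs <;> simp

lemma dy_add (F G : PowerSeries ℚ[X]) : dy (F + G) = dy F + dy G := by
  ext1 n
  simp [coeff_dy]

lemma dy_H : dy H = iota Sh := by
  rw [H, dy_add, dy_iota, dy_mul, dy_iota, dy_Y]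
  simp

lemma dx_G : PowerSeries.derivative ℚ[X] G = (1 - Y * Y) * dy G - Y * G := by
  ext1 n
  have h1 : (1 : PowerSeries ℚ[X]) - Y * Y = PowerSeries.C (1 - (X : ℚ[X]) * X) := by
    rw [Y, map_sub, map_mul, map_one]
  rw [h1, map_sub, PowerSeries.coeff_C_mul, Y, PowerSeries.coeff_C_mul, coeff_dy,
    PowerSeries.coeff_derivative, G, PowerSeries.coeff_mk, PowerSeries.coeff_mk, Q,
    Nat.factorial_succ]
  have h2 : (Polynomial.C (1 / (((n + 1) * n.factorial : ℕ) : ℚ)) : ℚ[X]) * ((n : ℚ[X]) + 1) =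
      Polynomial.C (1 / (n.factorial : ℚ)) := by
    have : ((n : ℚ[X]) + 1) = Polynomial.C ((n : ℚ) + 1) := by simp
    rw [this, ← C_mul]
    congr 1
    have h1 : (n.factorial : ℚ) ≠ 0 := by positivity
    have h2 : (n : ℚ) + 1 ≠ 0 := by positivity
    push_cast
    field_simp
  rw [mul_right_comm, h2, derivative_C_mul]
  ring

lemma G_mul_H : G * H = 1 := by
  set K := G * H with hK
  have h1 : PowerSeries.derivative ℚ[X] K = (1 - Y * Y) * dy K := by
    rw [hK, leib, dy_mul, dx_H, dy_H, dx_G, H]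
    ring
  have h0 : PowerSeries.coeff 0 K = 1 := by
    rw [hK, PowerSeries.coeff_mul]
    simp only [Finset.HasAntidiagonal.antidiagonal_zero, Finset.sum_singleton]
    rw [H, map_add, Y, PowerSeries.coeff_C_mul, iota, PowerSeries.coeff_map,
      PowerSeries.coeff_map, Ch, Sh, PowerSeries.coeff_C_mul, PowerSeries.coeff_C_mul,
      map_sub, map_add, coeff_E, coeff_E', G, PowerSeries.coeff_mk, Q]
    norm_num
  have hY : (1 : PowerSeries ℚ[X]) - Y * Y = PowerSeries.C (1 - (X : ℚ[X]) * X) := by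
    rw [Y, map_sub, map_mul, map_one]
  have hn : ∀ n, PowerSeries.coeff (n + 1) K = 0 := by
    intro n
    have h2 := congrArg (PowerSeries.coeff n) h1
    rw [PowerSeries.coeff_derivative, hY, PowerSeries.coeff_C_mul, coeff_dy] at h2
    have h3 : derivative (PowerSeries.coeff n K) = 0 := by
      induction n with
      | zero => rw [h0]; simp
      | succ n ih =>
        have h2' := congrArg (PowerSeries.coeff n) h1
        rw [PowerSeries.coeff_derivative, hY, PowerSeries.coeff_C_mul, coeff_dy] at h2'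
        have h4 := ih h2'
        rw [h4, mul_zero] at h2'
        have h5 : ((n : ℚ[X]) + 1) ≠ 0 := by exact_mod_cast Nat.succ_ne_zero n
        rw [(mul_eq_zero.mp h2').resolve_right h5]
        simp
    rw [h3, mul_zero] at h2
    have h5 : ((n : ℚ[X]) + 1) ≠ 0 := by exact_mod_cast Nat.succ_ne_zero n
    exact (mul_eq_zero.mp h2).resolve_right h5
  ext1 n
  cases n with
  | zero => rw [h0]; simp
  | succ n => rw [hn, PowerSeries.coeff_one, if_neg (Nat.succ_ne_zero n)]

lemma ev_iota (c : ℚ) (f : PowerSeries ℚ) :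
    PowerSeries.map (evalRingHom c) (iota f) = f := by
  ext1 n
  rw [PowerSeries.coeff_map, iota, PowerSeries.coeff_map]
  simp

lemma ev_Y (c : ℚ) : PowerSeries.map (evalRingHom c) Y = PowerSeries.C c := by
  ext1 n
  rw [PowerSeries.coeff_map, Y, PowerSeries.coeff_C, PowerSeries.coeff_C]
  split_ifs <;> simp

lemma ev_one_G : PowerSeries.map (evalRingHom (1 : ℚ)) G = E' := by
  have h := congrArg (PowerSeries.map (evalRingHom (1 : ℚ))) G_mul_H
  rw [map_mul, H, map_add, map_mul, ev_iota, ev_iota, ev_Y, map_one, map_one, one_mul,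
    Ch_add_Sh] at h
  calc _ = PowerSeries.map (evalRingHom (1 : ℚ)) G * (E * E') := by rw [E_mul_E', mul_one]
    _ = _ := by rw [← mul_assoc, h, one_mul]

lemma ev_neg_one_G : PowerSeries.map (evalRingHom (-1 : ℚ)) G = E := by
  have h := congrArg (PowerSeries.map (evalRingHom (-1 : ℚ))) G_mul_H
  have h2 : (Ch + PowerSeries.C (-1 : ℚ) * Sh) = E' := by
    rw [← Ch_sub_Sh, map_neg, map_one]; ring
  rw [map_mul, H, map_add, map_mul, ev_iota, ev_iota, ev_Y, map_one, h2] at h
  calc _ = PowerSeries.map (evalRingHom (-1 : ℚ)) G * (E' * E) := by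
        rw [mul_comm E' E, E_mul_E', mul_one]
    _ = _ := by rw [← mul_assoc, h, one_mul]

lemma dy_G : dy G = -(G * G * iota Sh) := by
  have h : dy (G * H) = 0 := by
    rw [G_mul_H]
    ext1 n
    rw [coeff_dy, PowerSeries.coeff_one]
    split_ifs <;> simp
  rw [dy_mul, dy_H] at h
  have h2 : dy G * (G * H) + G * G * iota Sh = 0 := by
    calc _ = G * (dy G * H + G * iota Sh) := by ring
      _ = 0 := by rw [h, mul_zero]
  rw [G_mul_H, mul_one] at h2
  exact eq_neg_of_add_eq_zero_left h2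

lemma Lam_G_sq : Lam (G * G) = 1 := by
  have h1 : Sh * Lam (G * G) = Sh := by
    rw [← Lam_iota_mul]
    have : iota Sh * (G * G) = - dy G := by rw [dy_G]; ring
    rw [this]
    have h2 : Lam (-dy G) = - Lam (dy G) := by
      ext1 n; simp [coeff_Lam]
    rw [h2, Lam_dy, ev_one_G, ev_neg_one_G, Sh]
    ring
  have h3 : Sh * (Lam (G * G) - 1) = 0 := by rw [mul_sub, h1]; ring
  have := (mul_eq_zero.mp h3).resolve_left Sh_ne
  exact sub_eq_zero.mp this

lemma dx_G' : PowerSeries.derivative ℚ[X] G = -(G * G * (iota Sh + Y * iota Ch)) := by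
  have h : PowerSeries.derivative ℚ[X] (G * H) = 0 := by
    rw [G_mul_H]
    exact PowerSeries.derivative_one
  rw [leib, dx_H] at h
  have h2 : PowerSeries.derivative ℚ[X] G * (G * H) + G * G * (iota Sh + Y * iota Ch) = 0 := by
    calc _ = G * (G * (iota Sh + Y * iota Ch) + H * PowerSeries.derivative ℚ[X] G) := by ring
      _ = 0 := by rw [h, mul_zero]
  rw [G_mul_H, mul_one] at h2
  exact eq_neg_of_add_eq_zero_left h2

lemma Sh_mul_Lam_G : Sh * Lam G = PowerSeries.X := by
  apply PowerSeries.derivative.ext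
  · rw [← Lam_iota_mul, ← Lam_derivative, leib, dx_iota, dSh, dx_G']
    have h : iota Sh * -(G * G * (iota Sh + Y * iota Ch)) + G * iota Ch = G * G := by
      have h1 : G * iota Ch = G * iota Ch * (G * H) := by rw [G_mul_H, mul_one]
      rw [h1, H]
      have h2 : iota Ch * iota Ch - iota Sh * iota Sh = 1 := by
        rw [← map_mul, ← map_mul, ← map_sub, Ch_sq, map_one]
      calc _ = G * G * (iota Ch * iota Ch - iota Sh * iota Sh) := by ring
        _ = _ := by rw [h2, mul_one]
    rw [h, Lam_G_sq, PowerSeries.derivative_X]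
  · rw [map_mul, Sh_const, zero_mul, PowerSeries.constantCoeff_X]

/-- `2 B(x) - B(2x)` -/
noncomputable def T : PowerSeries ℚ :=
  2 * bernoulliPowerSeries ℚ - PowerSeries.rescale 2 (bernoulliPowerSeries ℚ)

lemma Sh_mul_T : Sh * T = PowerSeries.X := by
  have h1 : bernoulliPowerSeries ℚ * (E - 1) = PowerSeries.X :=
    bernoulliPowerSeries_mul_exp_sub_one ℚ
  have h2 : PowerSeries.rescale 2 (bernoulliPowerSeries ℚ) * (E * E - 1) =
      2 * PowerSeries.X := by
    have := congrArg (PowerSeries.rescale (2 : ℚ)) h1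
    rw [map_mul, map_sub, map_one, PowerSeries.rescale_X] at this
    have h3 := PowerSeries.exp_pow_eq_rescale_exp (A := ℚ) 2
    rw [Nat.cast_ofNat] at h3
    rw [E, ← h3, pow_two] at this
    rw [E, this, C_two]
  have h3 : Sh = PowerSeries.C (1 / 2 : ℚ) * E' * (E * E - 1) := by
    calc Sh = PowerSeries.C (1 / 2 : ℚ) * (E * (E * E') - E') := by rw [E_mul_E', Sh, mul_one]
      _ = _ := by ring
  have h4 : (1 : PowerSeries ℚ) = PowerSeries.C (1 / 2 : ℚ) * 2 := two_C_half.symm
  calc Sh * T = PowerSeries.C (1 / 2 : ℚ) * 2 * E' * (E + 1) * (bernoulliPowerSeries ℚ * (E - 1))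
        - PowerSeries.C (1 / 2 : ℚ) * E' *
          (PowerSeries.rescale 2 (bernoulliPowerSeries ℚ) * (E * E - 1)) := by
        rw [h3, T]; ring
    _ = PowerSeries.C (1 / 2 : ℚ) * 2 * (E * E') * PowerSeries.X := by rw [h1, h2]; ring
    _ = PowerSeries.X := by rw [← h4, E_mul_E', one_mul, one_mul]

lemma Lam_G : Lam G = T := by
  have h : Sh * (Lam G - T) = 0 := by rw [mul_sub, Sh_mul_Lam_G, Sh_mul_T, sub_self]
  exact sub_eq_zero.mp ((mul_eq_zero.mp h).resolve_left Sh_ne)

lemma lam_Q (n : ℕ) : lam (Q n) = (2 - 2 ^ n) * _root_.bernoulli n := by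
  have h := congrArg (PowerSeries.coeff n) Lam_G
  rw [coeff_Lam, G, PowerSeries.coeff_mk, ← smul_eq_C_mul, map_smul, T, map_sub,
    PowerSeries.coeff_rescale, two_mul, map_add, bernoulliPowerSeries, PowerSeries.coeff_mk] at h
  simp only [smul_eq_mul, Algebra.algebraMap_self, RingHom.id_apply] at h
  have h1 : (n.factorial : ℚ) ≠ 0 := by positivity
  field_simp at h
  linarith

/-! ### The coefficients `c^{(n)}_{jk}` -/

/-- one step of the recursion on a monomial -/
noncomputable def stepM (p : ℕ × ℕ) : (ℕ × ℕ →₀ ℚ) :=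
  (p.1 : ℚ) • Finsupp.single (p.1 - 1, p.2) 1 + (p.2 : ℚ) • Finsupp.single (p.1 + 1, p.2 - 1) 1
    - ((p.2 : ℚ) + 1) • Finsupp.single (p.1, p.2 + 1) 1

/-- one step of the recursion -/
noncomputable def step : (ℕ × ℕ →₀ ℚ) →ₗ[ℚ] (ℕ × ℕ →₀ ℚ) := Finsupp.linearCombination ℚ stepM

/-- the coefficients -/
noncomputable def pc : ℕ → (ℕ × ℕ →₀ ℚ)
  | 0 => Finsupp.single (0, 0) 1
  | n + 1 => step (pc n)

/-- top part of weight `N` -/
noncomputable def tau (N : ℕ) : (ℕ × ℕ →₀ ℚ) →ₗ[ℚ] ℚ[X] :=
  Finsupp.linearCombination ℚ (fun p => if 2 * p.1 + p.2 = N then (X : ℚ[X]) ^ p.2 else 0)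

/-- the linear operator giving `Q` -/
noncomputable def LQ (q : ℚ[X]) : ℚ[X] := (1 - X ^ 2) * derivative q - X * q

lemma LQ_add (p q : ℚ[X]) : LQ (p + q) = LQ p + LQ q := by
  simp only [LQ, map_add]; ring

lemma LQ_smul (c : ℚ) (q : ℚ[X]) : LQ (c • q) = c • LQ q := by
  rw [LQ, LQ, derivative_smul]
  simp only [smul_eq_C_mul]
  ring

lemma LQ_pow (k : ℕ) : LQ (X ^ k) = (k : ℚ) • X ^ (k - 1) - ((k : ℚ) + 1) • X ^ (k + 1) := by
  rw [LQ]
  rcases k with _ | k
  · simp
  · rw [derivative_X_pow, smul_eq_C_mul, smul_eq_C_mul]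
    simp only [Nat.add_sub_cancel, C_add, C_1, map_natCast]
    push_cast
    ring

lemma tau_single (N : ℕ) (p : ℕ × ℕ) (c : ℚ) :
    tau N (Finsupp.single p c) = c • (if 2 * p.1 + p.2 = N then (X : ℚ[X]) ^ p.2 else 0) := by
  rw [tau, Finsupp.linearCombination_single]

lemma tau_stepM (n : ℕ) (p : ℕ × ℕ) (hp : 2 * p.1 + p.2 ≤ n) :
    tau (n + 1) (stepM p) = if 2 * p.1 + p.2 = n then LQ ((X : ℚ[X]) ^ p.2) else 0 := by
  obtain ⟨j, k⟩ := p
  simp only at hp ⊢
  rw [stepM, map_sub, map_add, map_smul, map_smul, map_smul, tau_single, tau_single, tau_single]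
  simp only [one_smul]
  have h1 : ¬ (2 * (j - 1) + k = n + 1) := by omega
  rw [if_neg h1, smul_zero, zero_add]
  have e3 : (2 * j + (k + 1) = n + 1) ↔ (2 * j + k = n) := by omega
  rw [if_congr e3 rfl rfl]
  rcases k with _ | k
  · by_cases h : 2 * j + 0 = n
    · rw [if_pos h, if_pos h, LQ_pow]; simp
    · rw [if_neg h, if_neg h]; simp
  · have e4 : (2 * (j + 1) + (k + 1 - 1) = n + 1) ↔ (2 * j + (k + 1) = n) := by omega
    rw [if_congr e4 rfl rfl]
    by_cases h : 2 * j + (k + 1) = n
    · rw [if_pos h, if_pos h, if_pos h, LQ_pow]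
    · rw [if_neg h, if_neg h, if_neg h]; simp

/-- supported in weights at most `n` -/
def Sup (n : ℕ) : Submodule ℚ (ℕ × ℕ →₀ ℚ) :=
  Finsupp.supported ℚ ℚ {p | 2 * p.1 + p.2 ≤ n}

lemma single_mem_Sup {n : ℕ} {p : ℕ × ℕ} (c : ℚ) (hp : 2 * p.1 + p.2 ≤ n) :
    Finsupp.single p c ∈ Sup n := by
  exact Finsupp.single_mem_supported ℚ c hp

lemma stepM_mem {n : ℕ} (p : ℕ × ℕ) (hp : 2 * p.1 + p.2 ≤ n) : stepM p ∈ Sup (n + 1) := by
  obtain ⟨j, k⟩ := p
  simp only at hp
  rw [stepM]
  refine Submodule.sub_mem _ (Submodule.add_mem _ ?_ ?_) ?_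
  · exact Submodule.smul_mem _ _ (single_mem_Sup _ (by simp only; omega))
  · rcases k with _ | k
    · simp
    · exact Submodule.smul_mem _ _ (single_mem_Sup _ (by simp only; omega))
  · exact Submodule.smul_mem _ _ (single_mem_Sup _ (by simp only; omega))

lemma step_single (p : ℕ × ℕ) (c : ℚ) : step (Finsupp.single p c) = c • stepM p := by
  rw [step, Finsupp.linearCombination_single]

/-- induction principle for `Sup` -/
lemma Sup_induction {n : ℕ} {motive : (ℕ × ℕ →₀ ℚ) → Prop} (f : ℕ × ℕ →₀ ℚ) (hf : f ∈ Sup n)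
    (h0 : motive 0) (hs : ∀ p c, 2 * p.1 + p.2 ≤ n → motive (Finsupp.single p c))
    (ha : ∀ f g, motive f → motive g → motive (f + g)) : motive f := by
  classical
  rw [Sup, Finsupp.mem_supported] at hf
  rw [← Finsupp.sum_single f, Finsupp.sum]
  have : ∀ s : Finset (ℕ × ℕ), (∀ p ∈ s, 2 * p.1 + p.2 ≤ n) →
      motive (∑ a ∈ s, Finsupp.single a (f a)) := by
    intro s
    induction s using Finset.induction_on with
    | empty => intro _; simpa using h0
    | insert a s ha' ih =>
      intro hs'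
      rw [Finset.sum_insert ha']
      exact ha _ _ (hs _ _ (hs' a (Finset.mem_insert_self _ _)))
        (ih fun p hp => hs' p (Finset.mem_insert_of_mem hp))
  exact this _ fun p hp => hf hp

lemma step_mem {n : ℕ} (f : ℕ × ℕ →₀ ℚ) (hf : f ∈ Sup n) : step f ∈ Sup (n + 1) := by
  refine Sup_induction (motive := fun f => step f ∈ Sup (n + 1)) f hf ?_ ?_ ?_
  · simp
  · intro p c hp
    rw [step_single]
    exact Submodule.smul_mem _ _ (stepM_mem p hp)
  · intro f g hf hg
    rw [map_add]
    exact Submodule.add_mem _ hf hg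

lemma pc_mem (n : ℕ) : pc n ∈ Sup n := by
  induction n with
  | zero => exact single_mem_Sup _ (by simp)
  | succ n ih => exact step_mem _ ih

lemma tau_step {n : ℕ} (f : ℕ × ℕ →₀ ℚ) (hf : f ∈ Sup n) :
    tau (n + 1) (step f) = LQ (tau n f) := by
  refine Sup_induction (motive := fun f => tau (n + 1) (step f) = LQ (tau n f)) f hf ?_ ?_ ?_
  · simp [LQ]
  · intro p c hp
    rw [step_single, map_smul, tau_stepM n p hp, tau_single, LQ_smul]
    split_ifs
    · rfl
    · simp [LQ]
  · intro f g hf hg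
    rw [map_add, map_add, map_add, hf, hg, LQ_add]

lemma tau_pc (n : ℕ) : tau n (pc n) = Q n := by
  induction n with
  | zero => rw [pc, tau_single]; simp [Q]
  | succ n ih => rw [pc, tau_step _ (pc_mem n), ih, Q, LQ]

/-! ### The reduction in top weight -/

lemma red_top (k : ℕ) : ∀ j i : ℕ,
    (2 * j + k < 2 * i → red k j (k + 2) (i, 2) = 0) ∧
    (2 * j + k = 2 * i → red k j (k + 2) (i, 2) = 1 / ((k : ℚ) + 1)) := by
  induction k using Nat.strong_induction_on with
  | _ k ih =>
    rcases k with _ | _ | k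
    · intro j i
      refine ⟨fun h => ?_, fun h => ?_⟩
      · rw [red, Finsupp.single_eq_of_ne]
        intro h'
        have := congrArg Prod.fst h'
        simp only at this
        omega
      · have : j = i := by omega
        subst this
        rw [red]
        simp
    · intro j i
      refine ⟨fun h => ?_, fun h => by omega⟩
      rw [red, Finsupp.smul_apply, red, Finsupp.single_eq_of_ne, smul_zero]
      intro h'
      have := congrArg Prod.fst h'
      simp only at this
      omega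
    · intro j i
      have e1 : k + 2 + 2 - 1 = (k + 1) + 2 := by omega
      have e2 : k + 2 + 2 - 2 = k + 2 := by omega
      have key : 2 * j + (k + 2) ≤ 2 * i →
          red (k + 2) j (k + 2 + 2) (i, 2) = (((k : ℚ) + 1) / ((k : ℚ) + 3)) *
            red k (j + 1) (k + 2) (i, 2) := by
        intro h
        rw [red, Finsupp.add_apply, Finsupp.smul_apply, Finsupp.smul_apply, e1, e2]
        have h1 : ((j : ℚ) / (((k + 2 + 2 : ℕ) : ℚ) - 1)) •
            (red (k + 1) (j - 1) (k + 1 + 2)) (i, 2) = 0 := by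
          rcases j with _ | j
          · simp
          · rw [((ih (k + 1) (by omega)) (j + 1 - 1) i).1 (by omega), smul_zero]
        rw [h1, zero_add, smul_eq_mul]
        congr 2
        push_cast
        ring
      refine ⟨fun h => ?_, fun h => ?_⟩
      · rw [key (by omega), ((ih k (by omega)) (j + 1) i).1 (by omega), mul_zero]
      · rw [key (by omega), ((ih k (by omega)) (j + 1) i).2 (by omega)]
        have h1 : (k : ℚ) + 1 ≠ 0 := by positivity
        have h2 : (k : ℚ) + 3 ≠ 0 := by positivity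
        push_cast
        field_simp
        ring

/-- the reduction map -/
noncomputable def Rmap : (ℕ × ℕ →₀ ℚ) →ₗ[ℚ] (ℕ × ℕ →₀ ℚ) :=
  Finsupp.linearCombination ℚ (fun p => red p.2 p.1 (p.2 + 2))

lemma Rmap_top {m : ℕ} (f : ℕ × ℕ →₀ ℚ) (hf : f ∈ Sup (2 * m)) :
    (Rmap f) (m, 2) = lam (tau (2 * m) f) := by
  refine Sup_induction (motive := fun f => (Rmap f) (m, 2) = lam (tau (2 * m) f)) f hf ?_ ?_ ?_
  · simp
  · rintro ⟨j, k⟩ c hp
    simp only at hp
    rw [Rmap, Finsupp.linearCombination_single, tau_single, map_smul, Finsupp.smul_apply]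
    congr 1
    simp only
    rcases hp.lt_or_eq with h | h
    · rw [(red_top k j m).1 h, if_neg h.ne, map_zero]
    · rw [(red_top k j m).2 h, if_pos h, X_pow_eq_monomial, lam_monomial, if_pos, mul_one]
      exact ⟨m - j, by omega⟩
  · intro f g hf hg
    rw [map_add, map_add, map_add, Finsupp.add_apply, hf, hg]

/-! ### The Airy ring -/

section ring

variable {A : Type*} [CommRing A] [Algebra ℚ A] (z a b a' : A)

/-- the monomials `z^j b^k a^{-(k+2)}` -/
def mon (p : ℕ × ℕ) : A := z ^ p.1 * b ^ p.2 * a' ^ (p.2 + 2)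

lemma eval_step (D : Derivation ℚ A A) (haa : a * a' = 1) (hz : D z = 1) (ha : D a = b)
    (hb : D b = z * a) (p : ℕ × ℕ) :
    a' * D (a * mon z b a' p) = Finsupp.linearCombination ℚ (mon z b a') (stepM p) := by
  obtain ⟨j, k⟩ := p
  have hD : D a' = -(a' ^ 2 * b) := by
    have h := D.leibniz_of_mul_eq_one (a := a') (b := a) (by rw [mul_comm]; exact haa)
    rw [h, ha, smul_eq_mul]
    ring
  have e1 : a * mon z b a' (j, k) = z ^ j * (b ^ k * a' ^ (k + 1)) := by
    calc a * mon z b a' (j, k) = z ^ j * (b ^ k * a' ^ (k + 1)) * (a * a') := by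
          simp only [mon]; ring
      _ = _ := by rw [haa, mul_one]
  rw [e1, stepM, map_sub, map_add, map_smul, map_smul, map_smul,
    Finsupp.linearCombination_single, Finsupp.linearCombination_single,
    Finsupp.linearCombination_single]
  simp only [one_smul, D.leibniz, D.leibniz_pow, hz, hb, hD, smul_eq_mul, mon, nsmul_eq_mul,
    Nat.add_sub_cancel]
  simp only [Algebra.smul_def, map_natCast, map_add, map_one]
  rcases k with _ | k
  · simp only [Nat.cast_zero]
    push_cast
    ring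
  · have e2 : z ^ j * (a' ^ (k + 1 + 1) * (((k + 1 : ℕ) : A) * (b ^ (k + 1 - 1) * (z * a)))) =
        ((k + 1 : ℕ) : A) * z ^ (j + 1) * b ^ k * a' ^ (k + 1) * (a * a') := by
      simp only [Nat.add_sub_cancel]; ring
    rw [mul_add (z ^ j), mul_add a', mul_add a', e2, haa]
    simp only [Nat.add_sub_cancel]
    push_cast
    ring

lemma eval_pc (D : Derivation ℚ A A) (haa : a * a' = 1) (hz : D z = 1) (ha : D a = b)
    (hb : D b = z * a) (n : ℕ) :
    a' * (D^[n]) a' = Finsupp.linearCombination ℚ (mon z b a') (pc n) := by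
  induction n with
  | zero =>
    rw [pc, Finsupp.linearCombination_single]
    simp [mon, pow_two]
  | succ n ih =>
    rw [Function.iterate_succ_apply']
    have h1 : (D^[n]) a' = a * Finsupp.linearCombination ℚ (mon z b a') (pc n) := by
      rw [← ih, ← mul_assoc, haa, one_mul]
    rw [h1, pc]
    have h2 : ∀ f : ℕ × ℕ →₀ ℚ, a' * D (a * Finsupp.linearCombination ℚ (mon z b a') f) =
        Finsupp.linearCombination ℚ (mon z b a') (step f) := by
      intro f
      induction f using Finsupp.induction_linear with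
      | zero => simp
      | add f g hf hg => rw [map_add, mul_add, map_add, mul_add, hf, hg, map_add, map_add]
      | single p c =>
        rw [step_single, map_smul, ← eval_step z a b a' D haa hz ha hb p,
          Finsupp.linearCombination_single, mul_smul_comm, D.map_smul, mul_smul_comm]
    exact h2 _

lemma mon_inj (haa : a * a' = 1) (hind : AlgebraicIndependent ℚ ![z, a, b])
    (f : ℕ × ℕ →₀ ℚ) (hf : Finsupp.linearCombination ℚ (mon z b a') f = 0) : f = 0 := by
  classical
  set K := f.support.sup Prod.snd with hK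
  have hle : ∀ p ∈ f.support, p.2 ≤ K := fun p hp => Finset.le_sup (f := Prod.snd) hp
  let e : ℕ × ℕ → (Fin 3 →₀ ℕ) := fun p =>
    Finsupp.single 0 p.1 + Finsupp.single 1 (K - p.2) + Finsupp.single 2 p.2
  have e0 : ∀ p, e p 0 = p.1 := fun p => by simp [e]
  have e2 : ∀ p, e p 2 = p.2 := fun p => by simp [e]
  have einj : Function.Injective e := by
    intro p q h
    ext
    · rw [← e0, ← e0, h]
    · rw [← e2, ← e2, h]
  let F : MvPolynomial (Fin 3) ℚ := ∑ p ∈ f.support, MvPolynomial.monomial (e p) (f p)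
  have h1 : MvPolynomial.aeval ![z, a, b] F = a ^ (K + 2) *
      Finsupp.linearCombination ℚ (mon z b a') f := by
    rw [Finsupp.linearCombination_apply, Finsupp.sum, Finset.mul_sum, map_sum]
    refine Finset.sum_congr rfl fun p hp => ?_
    rw [MvPolynomial.aeval_monomial, Finsupp.prod_fintype _ _ (fun i => pow_zero _),
      Fin.prod_univ_three, e0, e2, Algebra.smul_def]
    have e1 : e p 1 = K - p.2 := by simp [e]
    rw [e1, mon]
    simp only [Matrix.cons_val_zero, Matrix.cons_val_one, Matrix.cons_val_two]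
    have h3 : a ^ (K + 2) = a ^ (K - p.2) * a ^ (p.2 + 2) := by
      rw [← pow_add]; congr 1; have := hle p hp; omega
    have h4 : a ^ (p.2 + 2) * a' ^ (p.2 + 2) = 1 := by rw [← mul_pow, haa, one_pow]
    calc _ = algebraMap ℚ A (f p) * (z ^ p.1 * a ^ (K - p.2) * b ^ p.2) * 1 := by
          rw [mul_one]; rfl
      _ = algebraMap ℚ A (f p) * (z ^ p.1 * a ^ (K - p.2) * b ^ p.2) *
          (a ^ (p.2 + 2) * a' ^ (p.2 + 2)) := by rw [h4]
      _ = _ := by rw [h3]; ring
  rw [hf, mul_zero] at h1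
  have h2 : F = 0 := by
    have := hind.eq_zero_of_aeval_eq_zero F h1
    exact this
  ext p
  by_contra hp
  have hp' : p ∈ f.support := by
    rw [Finsupp.mem_support_iff]; exact hp
  have h3 := congrArg (MvPolynomial.coeff (e p)) h2
  rw [MvPolynomial.coeff_sum, Finset.sum_eq_single p] at h3
  · rw [MvPolynomial.coeff_monomial, if_pos rfl] at h3
    exact hp h3
  · intro q _ hq
    rw [MvPolynomial.coeff_monomial, if_neg]
    exact fun h => hq (einj h)
  · intro h; exact absurd hp' h

end ring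

/-- Let `z, a, b` be algebraically independent over `ℚ` in a `ℚ`-algebra `A`, with `a` invertible,
`a a' = 1`, and let `D` be a derivation with `D z = 1`, `D a = b`, `D b = z a`.
There is a unique family of finitely supported coefficients `c n (j, k)` with
`a⁻¹ D^n (a⁻¹) = ∑ c n (j, k) z^j b^k a^{-(k+2)}` for all `n`, and for this family the coefficient
`b_{2m,m}` of the symbol `[m,0,2]` in `∑ c (2m) (j, k) R[j,k,k+2]` is `(2 - 2^{2m}) B_{2m}`. -/
theorem result {A : Type*} [CommRing A] [Algebra ℚ A] (z a b a' : A)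
    (hind : AlgebraicIndependent ℚ ![z, a, b]) (haa : a * a' = 1) (D : Derivation ℚ A A)
    (hz : D z = 1) (ha : D a = b) (hb : D b = z * a) :
    (∃! c : ℕ → (ℕ × ℕ →₀ ℚ), ∀ n, a' * (D^[n]) a' =
        (c n).sum fun jk q => q • (z ^ jk.1 * b ^ jk.2 * a' ^ (jk.2 + 2))) ∧
    ∀ c : ℕ → (ℕ × ℕ →₀ ℚ),
      (∀ n, a' * (D^[n]) a' =
        (c n).sum fun jk q => q • (z ^ jk.1 * b ^ jk.2 * a' ^ (jk.2 + 2))) →
      ∀ m, ((c (2 * m)).sum fun jk q => q • red jk.2 jk.1 (jk.2 + 2)) (m, 2) =
        (2 - 2 ^ (2 * m)) * _root_.bernoulli (2 * m) := by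
  have huniq : ∀ c : ℕ → (ℕ × ℕ →₀ ℚ),
      (∀ n, a' * (D^[n]) a' =
        (c n).sum fun jk q => q • (z ^ jk.1 * b ^ jk.2 * a' ^ (jk.2 + 2))) → c = pc := by
    intro c hc
    funext n
    have h1 := hc n
    rw [eval_pc z a b a' D haa hz ha hb n] at h1
    have h2 : Finsupp.linearCombination ℚ (mon z b a') (c n - pc n) = 0 := by
      rw [map_sub, h1, sub_eq_zero]
      rfl
    exact sub_eq_zero.mp (mon_inj z a b a' haa hind _ h2)
  refine ⟨⟨pc, fun n => eval_pc z a b a' D haa hz ha hb n, huniq⟩, fun c hc m => ?_⟩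
  rw [huniq c hc]
  have h := Rmap_top (pc (2 * m)) (pc_mem (2 * m))
  rw [tau_pc, lam_Q] at h
  exact h

end Pool.Agent.Results.MP_c1403d_pr.LeadingCoefficients
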